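import Mathlib

set_option autoImplicit false

namespace Pool.Agent.H456Z.Dist

/-- The weighted distance between `u` and `v`: the least total weight of a path from `u` to `v`. -/
noncomputable def wdist {V : Type} (G : SimpleGraph V) (φ : Sym2 V → ℝ) (u v : V) : ℝ :=
  sInf {s : ℝ | ∃ p : G.Walk u v, p.IsPath ∧ s = (p.edges.map φ).sum}

/-- The weighted distance matrix. -/
noncomputable def distMatrix {V : Type} (G : SimpleGraph V) (φ : Sym2 V → ℝ) : Matrix V V ℝ :=
  Matrix.of fun u v => wdist G φ u v

/-- The number of positive eigenvalues, counted with multiplicity: the number of positive roots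
of the characteristic polynomial. -/
noncomputable def numPos {V : Type} [Fintype V] [DecidableEq V] (A : Matrix V V ℝ) : ℕ :=
  Multiset.card (A.charpoly.roots.filter fun x => 0 < x)

/-- `H` is a minor of `G`: there are pairwise disjoint branch sets, each inducing a (nonempty)
connected subgraph of `G`, with an edge of `G` between the branch sets of any two adjacent
vertices of `H`. -/
def IsMinor {W V : Type} (H : SimpleGraph W) (G : SimpleGraph V) : Prop :=
  ∃ B : W → Set V, (∀ w, (G.induce (B w)).Connected) ∧
    (∀ w w', w ≠ w' → Disjoint (B w) (B w')) ∧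
    ∀ w w', H.Adj w w' → ∃ x ∈ B w, ∃ y ∈ B w', G.Adj x y

/-- The part of a vertex: the two vertices of `Fin 2` form one part, and for each `i` the three
vertices `(i, j)` form a part. -/
def part {n : ℕ} : Fin 2 ⊕ Fin n × Fin 3 → Option (Fin n)
  | Sum.inl _ => none
  | Sum.inr x => some x.1

/-- The complete multipartite graph with one part of size two and `n` parts of size three. -/
def K23 (n : ℕ) : SimpleGraph (Fin 2 ⊕ Fin n × Fin 3) where
  Adj x y := part x ≠ part y
  symm := ⟨fun _ _ h => h.symm⟩
  loopless := ⟨fun _ h => h rfl⟩

end Pool.Agent.H456Z.Dist
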