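import Pool.Agent.H456Z.DistDefs

set_option autoImplicit false

namespace Pool.Agent.H456Z.Dist

open Matrix

lemma numPos_eq {V : Type} [Fintype V] [DecidableEq V] (A : Matrix V V ℝ) (hA : A.IsHermitian) :
    numPos A = Fintype.card {i // 0 < hA.eigenvalues i} := by
  unfold numPos
  rw [hA.roots_charpoly_eq_eigenvalues, Multiset.filter_map, Multiset.card_map, Fintype.card_subtype]
  rfl

lemma numPos_ge {V : Type} [Fintype V] [DecidableEq V] (A : Matrix V V ℝ) (hA : A.IsHermitian)
    (m : ℕ) (T : (Fin m → ℝ) →ₗ[ℝ] (V → ℝ)) (hT : ∀ c, c ≠ 0 → 0 < T c ⬝ᵥ A *ᵥ T c) :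
    m ≤ numPos A := by
  rw [numPos_eq A hA]
  set U : Matrix V V ℝ := (hA.eigenvectorUnitary : Matrix V V ℝ) with hU
  have hsp : A = U * diagonal hA.eigenvalues * star U := by
    conv_lhs => rw [hA.spectral_theorem, Unitary.conjStarAlgAut_apply]
    rfl
  have hq : ∀ x : V → ℝ, x ⬝ᵥ A *ᵥ x = ∑ i, hA.eigenvalues i * ((star U *ᵥ x) i) ^ 2 := by
    intro x
    conv_lhs => rw [hsp]
    rw [← mulVec_mulVec, ← mulVec_mulVec, dotProduct_mulVec]
    have : x ᵥ* U = star U *ᵥ x := by
      rw [star_eq_conjTranspose, conjTranspose_eq_transpose_of_trivial, mulVec_transpose]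
    rw [this]
    simp only [dotProduct, mulVec_diagonal]
    exact Finset.sum_congr rfl fun i _ => by ring
  let L : (Fin m → ℝ) →ₗ[ℝ] ({i // 0 < hA.eigenvalues i} → ℝ) :=
    (LinearMap.funLeft ℝ ℝ Subtype.val) ∘ₗ (Matrix.mulVecLin (star U)) ∘ₗ T
  have hL : Function.Injective L := by
    rw [← LinearMap.ker_eq_bot, LinearMap.ker_eq_bot']
    intro c hc
    by_contra hne
    have h1 := hT c hne
    rw [hq] at h1
    have h2 : ∑ i, hA.eigenvalues i * ((star U *ᵥ T c) i) ^ 2 ≤ 0 := by
      apply Finset.sum_nonpos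
      intro i _
      by_cases hi : 0 < hA.eigenvalues i
      · have : (star U *ᵥ T c) i = 0 := congrFun hc ⟨i, hi⟩
        rw [this]; simp
      · exact mul_nonpos_of_nonpos_of_nonneg (not_lt.1 hi) (sq_nonneg _)
    linarith
  have := LinearMap.finrank_le_finrank_of_injective hL
  simpa using this

lemma wdist_one {V : Type} (G : SimpleGraph V) (hG : G.Connected) (u v : V) :
    wdist G (fun _ => 1) u v = G.dist u v := by
  unfold wdist
  apply IsLeast.csInf_eq
  constructor
  · obtain ⟨p, hp, hl⟩ := hG.exists_path_of_dist u v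
    exact ⟨p, hp, by simp [hl]⟩
  · rintro s ⟨p, -, rfl⟩
    have := SimpleGraph.dist_le p
    simp only [List.map_const', List.sum_replicate, SimpleGraph.Walk.length_edges, nsmul_eq_mul,
      mul_one, Nat.cast_le]
    exact this

/-- vertices of the wedge of `m` copies of `K_{2,3}` -/
abbrev WV (m : ℕ) := Option (Fin m × Fin 4)

def wadj {m : ℕ} : WV m → WV m → Prop
  | none, none => False
  | none, some y => y.2 ≠ 0
  | some x, none => x.2 ≠ 0
  | some x, some y => x.1 = y.1 ∧ ((x.2 = 0 ∧ y.2 ≠ 0) ∨ (x.2 ≠ 0 ∧ y.2 = 0))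

def wedge (m : ℕ) : SimpleGraph (WV m) where
  Adj := wadj
  symm := ⟨by
    rintro (_ | x) (_ | y) h <;> simp only [wadj] at h ⊢ <;> tauto⟩
  loopless := ⟨by
    rintro (_ | x) h <;> simp only [wadj] at h <;> tauto⟩

def ht {m : ℕ} : WV m → ℕ
  | none => 0
  | some x => if x.2 = 0 then 2 else 1

def dd {m : ℕ} : WV m → WV m → ℕ
  | none, y => ht y
  | some x, none => ht (some x)
  | some x, some y => if x.1 = y.1 then (if x.2 = y.2 then 0 else if x.2 = 0 ∨ y.2 = 0 then 1 else 2)
      else ht (some x) + ht (some y)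

lemma dd_lip {m : ℕ} (x y z : WV m) (h : (wedge m).Adj x y) : dd x z ≤ dd y z + 1 := by
  rcases x with _ | ⟨k, i⟩ <;> rcases y with _ | ⟨l, j⟩ <;> rcases z with _ | ⟨p, q⟩ <;>
    simp only [wedge, wadj] at h <;> simp only [dd, ht] <;> (try split_ifs) <;> omega

lemma dd_le_length {m : ℕ} {x z : WV m} (p : (wedge m).Walk x z) : dd x z ≤ p.length := by
  induction p with
  | nil =>
    rename_i u
    rcases u with _ | u <;> simp [dd, ht]
  | cons h p ih =>
    rw [SimpleGraph.Walk.length_cons]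
    exact (dd_lip _ _ _ h).trans (by omega)

lemma exists_walk_none {m : ℕ} (x : WV m) : ∃ p : (wedge m).Walk x none, p.length = ht x := by
  rcases x with _ | ⟨k, i⟩
  · exact ⟨SimpleGraph.Walk.nil, rfl⟩
  · by_cases hi : i = 0
    · subst hi
      have h1 : (wedge m).Adj (some (k, 0)) (some (k, 1)) := by simp [wedge, wadj]
      have h2 : (wedge m).Adj (some (k, 1)) none := by simp [wedge, wadj]
      exact ⟨.cons h1 (.cons h2 .nil), by simp [ht]⟩
    · have h2 : (wedge m).Adj (some (k, i)) none := by simp [wedge, wadj, hi]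
      exact ⟨.cons h2 .nil, by simp [ht, hi]⟩

lemma wedge_connected (m : ℕ) : (wedge m).Connected := by
  refine ⟨fun x y => ?_⟩
  obtain ⟨p, -⟩ := exists_walk_none x
  obtain ⟨q, -⟩ := exists_walk_none y
  exact ⟨p.append q.reverse⟩

lemma dist_eq {m : ℕ} (x y : WV m) : (wedge m).dist x y = dd x y := by
  apply le_antisymm
  · obtain ⟨p, hp⟩ := exists_walk_none x
    obtain ⟨q, hq⟩ := exists_walk_none y
    have h1 := SimpleGraph.dist_le (p.append q.reverse)
    rw [SimpleGraph.Walk.length_append, SimpleGraph.Walk.length_reverse, hp, hq] at h1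
    rcases x with _ | ⟨k, i⟩
    · simpa [dd, ht] using h1
    rcases y with _ | ⟨l, j⟩
    · simpa [dd, ht] using h1
    simp only [dd]
    split_ifs with h2 h3 h4
    · subst h2 h3; simp
    · have : (wedge m).Adj (some (k, i)) (some (l, j)) := by
        simp only [wedge, wadj]
        refine ⟨h2, ?_⟩
        rcases h4 with h4 | h4
        · exact Or.inl ⟨h4, fun h => h3 (h4.trans h.symm)⟩
        · exact Or.inr ⟨fun h => h3 (h.trans h4.symm), h4⟩
      exact (SimpleGraph.dist_le (SimpleGraph.Walk.cons this .nil))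
    · push Not at h4
      simpa [ht, h4.1, h4.2] using h1
    · exact h1
  · obtain ⟨p, hp⟩ := (wedge_connected m).exists_walk_length_eq_dist x y
    rw [← hp]
    exact dd_le_length p

lemma distMatrix_eq (m : ℕ) :
    distMatrix (wedge m) (fun _ => 1) = Matrix.of fun u v => (dd u v : ℝ) := by
  ext u v
  simp only [distMatrix, Matrix.of_apply]
  rw [wdist_one _ (wedge_connected m), dist_eq]

lemma dd_symm {m : ℕ} (x y : WV m) : dd x y = dd y x := by
  rw [← dist_eq, ← dist_eq, SimpleGraph.dist_comm]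

/-- test vectors -/
def TT (m : ℕ) : (Fin m → ℝ) →ₗ[ℝ] (WV m → ℝ) where
  toFun c := fun x => match x with
    | none => 3 * ∑ k, c k
    | some y => if y.2 = 0 then 3 * c y.1 else -2 * c y.1
  map_add' c d := by
    funext x
    rcases x with _ | y
    · simp only [Pi.add_apply, Finset.sum_add_distrib]; ring
    · simp only [Pi.add_apply]; split_ifs <;> ring
  map_smul' a c := by
    funext x
    rcases x with _ | y
    · simp only [Pi.smul_apply, smul_eq_mul, RingHom.id_apply, ← Finset.mul_sum]; ring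
    · simp only [Pi.smul_apply, smul_eq_mul, RingHom.id_apply]; split_ifs <;> ring

lemma mulVec_TT (m : ℕ) (c : Fin m → ℝ) (x : WV m) :
    ((Matrix.of fun u v : WV m => (dd u v : ℝ)) *ᵥ TT m c) x =
      match x with
      | none => 0
      | some y => if y.2 = 0 then 0 else -2 * c y.1 := by
  simp only [mulVec, dotProduct, Matrix.of_apply, Fintype.sum_option, Fintype.sum_prod_type,
    Fin.sum_univ_four, TT, LinearMap.coe_mk, AddHom.coe_mk]
  rcases x with _ | ⟨k, i⟩
  · simp only [dd, ht]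
    simp
    apply Finset.sum_eq_zero
    intro l _
    ring
  · have key : ∀ l : Fin m, ((dd (some (k, i)) (some (l, 0)) : ℝ) * (3 * c l)
        + (dd (some (k, i)) (some (l, 1)) : ℝ) * (-2 * c l)
        + (dd (some (k, i)) (some (l, 2)) : ℝ) * (-2 * c l)
        + (dd (some (k, i)) (some (l, 3)) : ℝ) * (-2 * c l)) =
        -3 * (ht (some (k, i) : WV m) : ℝ) * c l
          + (if l = k then (if i = 0 then 0 else -2 * c k) else 0) := by
      intro l
      by_cases hl : l = k
      · subst hl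
        fin_cases i <;> simp [dd, ht] <;> ring
      · have hl' : ¬ k = l := fun h => hl h.symm
        simp only [dd, hl, hl', if_false]
        simp [ht]
        split_ifs <;> ring
    have e1 : ((1 : Fin 4) = 0) = False := by simp
    have e2 : ((2 : Fin 4) = 0) = False := by simp
    have e3 : ((3 : Fin 4) = 0) = False := by simp
    simp only [e1, e2, e3, if_true, if_false]
    rw [Finset.sum_congr rfl fun l _ => key l, Finset.sum_add_distrib, ← Finset.mul_sum]
    simp only [Finset.sum_ite_eq', Finset.mem_univ, if_true, dd]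
    ring

lemma quad (m : ℕ) (c : Fin m → ℝ) :
    TT m c ⬝ᵥ (Matrix.of fun u v : WV m => (dd u v : ℝ)) *ᵥ TT m c = 12 * ∑ k, c k ^ 2 := by
  simp only [dotProduct, mulVec_TT, Fintype.sum_option, Fintype.sum_prod_type, Fin.sum_univ_four]
  simp only [TT, LinearMap.coe_mk, AddHom.coe_mk]
  simp
  rw [Finset.mul_sum]
  exact Finset.sum_congr rfl fun k _ => by ring

lemma wedge_numPos (m : ℕ) : m ≤ numPos (distMatrix (wedge m) (fun _ => 1)) := by
  rw [distMatrix_eq]
  apply numPos_ge _ _ m (TT m)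
  · intro c hc
    rw [quad]
    obtain ⟨k, hk⟩ := Function.ne_iff.1 hc
    have : 0 < ∑ k, c k ^ 2 :=
      Finset.sum_pos' (fun i _ => sq_nonneg _) ⟨k, Finset.mem_univ _, by
        have : c k ≠ 0 := hk
        positivity⟩
    linarith
  · ext u v
    simp [dd_symm u v]

lemma minor_card {W V : Type} [Fintype W] [Fintype V] (H : SimpleGraph W) (G : SimpleGraph V)
    (h : IsMinor H G) :
    Nat.card {e : W × W // H.Adj e.1 e.2} ≤ Nat.card {e : V × V // G.Adj e.1 e.2} := by
  obtain ⟨B, -, hd, he⟩ := h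
  choose x hx y hy hxy using he
  have huniq : ∀ w w' z, z ∈ B w → z ∈ B w' → w = w' := by
    intro w w' z h1 h2
    by_contra hne
    exact Set.disjoint_left.1 (hd w w' hne) h1 h2
  apply Nat.card_le_card_of_injective
    (fun e : {e : W × W // H.Adj e.1 e.2} =>
      (⟨(x e.1.1 e.1.2 e.2, y e.1.1 e.1.2 e.2), hxy _ _ _⟩ : {e : V × V // G.Adj e.1 e.2}))
  rintro ⟨⟨a, b⟩, hab⟩ ⟨⟨a', b'⟩, hab'⟩ heq
  simp only [Subtype.mk.injEq, Prod.mk.injEq] at heq ⊢
  refine ⟨huniq _ _ _ (hx a b hab) (heq.1 ▸ hx a' b' hab'),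
    huniq _ _ _ (hy a b hab) (heq.2 ▸ hy a' b' hab')⟩

lemma wedge_card (m : ℕ) : Nat.card {e : WV m × WV m // (wedge m).Adj e.1 e.2} ≤ 12 * m := by
  let f : Fin m × Fin 3 × Fin 4 → WV m × WV m := fun t =>
    if t.2.2 = 0 then (none, some (t.1, t.2.1.succ))
    else if t.2.2 = 1 then (some (t.1, t.2.1.succ), none)
    else if t.2.2 = 2 then (some (t.1, 0), some (t.1, t.2.1.succ))
    else (some (t.1, t.2.1.succ), some (t.1, 0))
  have hs : ∀ e : WV m × WV m, (wedge m).Adj e.1 e.2 → ∃ t, f t = e := by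
    rintro ⟨_ | ⟨k, i⟩, _ | ⟨l, j⟩⟩ h <;> simp only [wedge, wadj] at h
    · obtain ⟨j', rfl⟩ := Fin.exists_succ_eq.2 h
      exact ⟨(l, j', 0), by simp [f]⟩
    · obtain ⟨j', rfl⟩ := Fin.exists_succ_eq.2 h
      exact ⟨(k, j', 1), by simp [f]⟩
    · obtain ⟨rfl, ⟨rfl, h⟩ | ⟨h, rfl⟩⟩ := h
      · obtain ⟨j', rfl⟩ := Fin.exists_succ_eq.2 h
        exact ⟨(k, j', 2), by simp [f]⟩
      · obtain ⟨j', rfl⟩ := Fin.exists_succ_eq.2 h
        exact ⟨(k, j', 3), by simp [f]⟩
  choose g hg using hs
  have : Nat.card {e : WV m × WV m // (wedge m).Adj e.1 e.2} ≤ Nat.card (Fin m × Fin 3 × Fin 4) := by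
    apply Nat.card_le_card_of_injective (fun e => g e.1 e.2)
    intro a b hab
    apply Subtype.ext
    rw [← hg a.1 a.2, ← hg b.1 b.2]
    exact congrArg f hab
  have h2 : Nat.card (Fin m × Fin 3 × Fin 4) = 12 * m := by
    simp only [Nat.card_eq_fintype_card, Fintype.card_prod, Fintype.card_fin]
    omega
  omega

lemma K23_deg (n : ℕ) (x : Fin 2 ⊕ Fin n × Fin 3) :
    3 * n + 2 ≤ (Finset.univ.filter fun y => part x ≠ part y).card + 3 := by
  have h1 := Finset.card_filter_add_card_filter_not (s := (Finset.univ : Finset (Fin 2 ⊕ Fin n × Fin 3)))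
    (fun y => part x ≠ part y)
  have h2 : (Finset.univ.filter fun y : Fin 2 ⊕ Fin n × Fin 3 => ¬ part x ≠ part y).card ≤ 3 := by
    have : (Finset.univ.filter fun y : Fin 2 ⊕ Fin n × Fin 3 => ¬ part x ≠ part y).card ≤
        (Finset.univ : Finset (Fin 3)).card := by
      apply Finset.card_le_card_of_injOn
        (fun y => match y with | Sum.inl a => a.castSucc | Sum.inr b => b.2)
      · intro y _; simp
      · rintro (a | ⟨a, a'⟩) ha (b | ⟨b, b'⟩) hb hab <;>
          simp only [Finset.coe_filter, Finset.mem_univ, true_and, Set.mem_ofPred_eq, not_not] at ha hb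
        · simp only [Fin.castSucc_inj] at hab; rw [hab]
        · have := ha.symm.trans hb; simp [part] at this
        · have := ha.symm.trans hb; simp [part] at this
        · have := ha.symm.trans hb
          simp only [part, Option.some.injEq] at this
          simp only at hab
          rw [this, hab]
    simpa using this
  simp only [Finset.card_univ, Fintype.card_sum, Fintype.card_fin, Fintype.card_prod] at h1
  omega

lemma K23_card (n : ℕ) :
    (3 * n + 2) * (3 * n + 2) ≤ Nat.card {e : (Fin 2 ⊕ Fin n × Fin 3) × (Fin 2 ⊕ Fin n × Fin 3) //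
      (K23 n).Adj e.1 e.2} + 3 * (3 * n + 2) := by
  classical
  have h0 : Nat.card {e : (Fin 2 ⊕ Fin n × Fin 3) × (Fin 2 ⊕ Fin n × Fin 3) //
      (K23 n).Adj e.1 e.2} = ∑ x : Fin 2 ⊕ Fin n × Fin 3,
        (Finset.univ.filter fun y => part x ≠ part y).card := by
    rw [Nat.card_eq_fintype_card, Fintype.card_subtype, Finset.card_filter, Fintype.sum_prod_type]
    refine Finset.sum_congr rfl fun x _ => ?_
    rw [Finset.card_filter]
    refine Finset.sum_congr rfl fun y _ => ?_
    simp only [K23]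
    congr
  have h1 := Finset.sum_le_sum (s := (Finset.univ : Finset (Fin 2 ⊕ Fin n × Fin 3)))
    fun x _ => K23_deg n x
  simp only [Finset.sum_add_distrib, Finset.sum_const, Finset.card_univ, Fintype.card_sum, Fintype.card_fin,
    Fintype.card_prod, smul_eq_mul] at h1
  rw [h0]
  nlinarith

theorem main (n : ℕ) (hn : 2 ≤ n) :
    ∃ (V : Type) (_ : Fintype V) (_ : DecidableEq V) (G : SimpleGraph V),
      G.Connected ∧ ¬ IsMinor (K23 n) G ∧
      ∃ φ : Sym2 V → ℝ, (∀ e ∈ G.edgeSet, 0 < φ e) ∧ n < numPos (distMatrix G φ) := by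
  refine ⟨WV (n + 1), inferInstance, inferInstance, wedge (n + 1), wedge_connected _, ?_,
    fun _ => 1, fun _ _ => one_pos, wedge_numPos (n + 1)⟩
  intro h
  have h1 := minor_card _ _ h
  have h2 := wedge_card (n + 1)
  have h3 := K23_card n
  nlinarith

end Pool.Agent.H456Z.Dist
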