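import Mathlib

set_option autoImplicit false

namespace Pool.Agent.H456Z.Pat

def row (S k : ℕ) : ℕ := Nat.mod (Nat.shiftRight S (Nat.mul 16 k)) 16384

def pc (x : ℕ) : ℕ := Nat.mod (Nat.land (Nat.mul x 35185445863425) 76861433640456465) 15

def prune1 (i j S : ℕ) : Bool :=
  Nat.ble 5 (pc (row S i)) || (Nat.ble 5 (pc (row S j)) ||
  (!(Nat.beq (Nat.land (row S i) (row S j)) 0) ||
  ((Nat.blt (Nat.succ i) j && Nat.beq (row S (Nat.pred j)) (row S j)) ||
  (Nat.ble 1 i && Nat.beq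
    (Nat.lor (Nat.mod (row S (Nat.pred i)) (Nat.pow 2 (Nat.succ j))) (Nat.mul 3 (Nat.pow 2 (Nat.pred i))))
    (Nat.lor (row S i) (Nat.mul 3 (Nat.pow 2 (Nat.pred i))))))))

def prune0 (i j S : ℕ) : Bool :=
  Nat.blt (Nat.add (pc (row S i)) (Nat.sub 13 j)) 5 || Nat.blt (Nat.add (pc (row S j)) (Nat.sub 12 i)) 5

def upd (i j S : ℕ) : ℕ :=
  Nat.lor (Nat.lor S (Nat.pow 2 (Nat.add (Nat.mul 16 i) j))) (Nat.pow 2 (Nat.add (Nat.mul 16 j) i))

noncomputable def dotb (P : List ℕ) : ℕ → ℕ :=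
  List.rec (motive := fun _ => ℕ → ℕ) (fun _ => 0)
    (fun x _ ih r => Nat.add (cond (Nat.beq (Nat.mod r 2) 1) x 0) (ih (Nat.div r 2))) P

noncomputable def step (S : ℕ) (P : List ℕ) : List ℕ :=
  [dotb P (row S 0), dotb P (row S 1), dotb P (row S 2), dotb P (row S 3), dotb P (row S 4),
   dotb P (row S 5), dotb P (row S 6), dotb P (row S 7), dotb P (row S 8), dotb P (row S 9),
   dotb P (row S 10), dotb P (row S 11), dotb P (row S 12), dotb P (row S 13)]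

def BB : ℕ := 340282366920938463463374607431768211456

def P0 : List ℕ := [Nat.pow BB 0, Nat.pow BB 1, Nat.pow BB 2, Nat.pow BB 3, Nat.pow BB 4,
  Nat.pow BB 5, Nat.pow BB 6, Nat.pow BB 7, Nat.pow BB 8, Nat.pow BB 9, Nat.pow BB 10,
  Nat.pow BB 11, Nat.pow BB 12, Nat.pow BB 13]

noncomputable def pw (S h : ℕ) : List ℕ :=
  Nat.rec (motive := fun _ => List ℕ) P0 (fun _ P => step S P) h

noncomputable def trb (P : List ℕ) : ℕ → ℕ :=
  List.rec (motive := fun _ => ℕ → ℕ) (fun _ => 0)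
    (fun x _ ih k => Nat.add (Nat.mod (Nat.div x (Nat.pow BB k)) BB) (ih (Nat.succ k))) P

noncomputable def gam (S h : ℕ) : ℕ := trb (pw S h) 0

def g1 : List ℕ := [14, 0, 70, 0, 1190, 960, 24790, 40320, 550598, 1276992, 12649270, 36495360, 297123110, 992462016, 7089455254, 26249754240, 171095580038, 682562584896, 4164192785398, 17552288510208, 101993990112230]

noncomputable def allg (S : ℕ) (g : List ℕ) : ℕ → Bool :=
  List.rec (motive := fun _ => ℕ → Bool) (fun _ => true)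
    (fun x _ ih h => Nat.beq (gam S h) x && ih (Nat.succ h)) g

noncomputable def leaf (S : ℕ) : Bool :=
  Nat.blt 1190 (gam S 4) || ((Nat.beq (gam S 4) 1190 && Nat.blt 960 (gam S 5)) || allg S g1 0)

noncomputable def go (ps : List (ℕ × ℕ)) : ℕ → Bool :=
  List.rec (motive := fun _ => ℕ → Bool) leaf
    (fun x _ ih S => (prune1 x.1 x.2 S || ih (upd x.1 x.2 S)) && (prune0 x.1 x.2 S || ih S)) ps

def ps0 : List (ℕ × ℕ) := [(0, 1), (0, 2), (0, 3), (0, 4), (0, 5), (0, 6), (0, 7), (0, 8), (0, 9), (0, 10), (0, 11), (0, 12), (0, 13), (1, 2), (1, 3), (1, 4), (1, 5), (1, 6), (1, 7), (1, 8), (1, 9), (1, 10), (1, 11), (1, 12), (1, 13), (2, 3), (2, 4), (2, 5), (2, 6), (2, 7), (2, 8), (2, 9), (2, 10), (2, 11), (2, 12), (2, 13), (3, 4), (3, 5), (3, 6), (3, 7), (3, 8), (3, 9), (3, 10), (3, 11), (3, 12), (3, 13), (4, 5), (4, 6), (4, 7), (4, 8), (4, 9), (4, 10), (4, 11), (4, 12), (4, 13), (5, 6), (5, 7), (5, 8), (5, 9),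 (5, 10), (5, 11), (5, 12), (5, 13), (6, 7), (6, 8), (6, 9), (6, 10), (6, 11), (6, 12), (6, 13), (7, 8), (7, 9), (7, 10), (7, 11), (7, 12), (7, 13), (8, 9), (8, 10), (8, 11), (8, 12), (8, 13), (9, 10), (9, 11), (9, 12), (9, 13), (10, 11), (10, 12), (10, 13), (11, 12), (11, 13), (12, 13)]

end Pool.Agent.H456Z.Pat
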