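import Pool.Agent.H456Z.PatVal
import Pool.Agent.H456Z.PatRun

set_option autoImplicit false

namespace Pool.Agent.H456Z.Pat

open Matrix

abbrev Des := Matrix (Fin 14) (Fin 35) ℕ

def IsDes (M : Des) : Prop := (∀ j, ∑ i, M i j = 2) ∧ (∀ i, ∑ j, M i j = 5)

def InBB (M : Des) : Prop := IsDes M ∧ (∀ i j, M i j ≤ 1) ∧
  (SimpleGraph.fromRel (fun i j : Fin 14 => 0 < (M * M.transpose) i j)).Connected

def Ah (M : Des) : Matrix (Fin 14) (Fin 14) ℤ :=
  M.map (fun x : ℕ => (x : ℤ)) * (M.map (fun x : ℕ => (x : ℤ))).transpose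
    - ((5 : ℕ) : ℤ) • (1 : Matrix (Fin 14) (Fin 14) ℤ)

def Gam (M : Des) (h : ℕ) : ℤ := trace (Ah M ^ h)

noncomputable def CM (M : Des) : Matrix (Fin 14) (Fin 14) ℝ :=
  ((5 : ℕ) : ℝ) • (1 : Matrix (Fin 14) (Fin 14) ℝ)
    - (1 / ((2 : ℕ) : ℝ)) • (M.map (fun x : ℕ => (x : ℝ)) * (M.map (fun x : ℕ => (x : ℝ))).transpose)

noncomputable def evv (M : Des) : Multiset ℝ := (Matrix.charpoly (CM M)).roots.erase 0

lemma Ah_apply (M : Des) (i k : Fin 14) :
    Ah M i k = ((∑ j, M i j * M k j : ℕ) : ℤ) - if i = k then 5 else 0 := by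
  simp only [Ah, Matrix.sub_apply, Matrix.mul_apply, Matrix.map_apply, Matrix.transpose_apply,
    Matrix.smul_apply, Matrix.one_apply]
  push_cast
  split_ifs <;> simp

lemma Ah_symm (M : Des) (i k : Fin 14) : Ah M i k = Ah M k i := by
  rw [Ah_apply, Ah_apply]
  simp only [mul_comm (M i _), eq_comm (a := i)]

lemma Ah_diag {M : Des} (h : IsDes M) (hb : ∀ i j, M i j ≤ 1) (i : Fin 14) : Ah M i i = 0 := by
  rw [Ah_apply]
  have : ∑ j, M i j * M i j = 5 := by
    rw [← h.2 i]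
    refine Finset.sum_congr rfl fun j _ => ?_
    have := hb i j
    interval_cases M i j <;> rfl
  rw [this]; simp

lemma Ah_nonneg {M : Des} (h : IsDes M) (hb : ∀ i j, M i j ≤ 1) (i k : Fin 14) : 0 ≤ Ah M i k := by
  by_cases hik : i = k
  · subst hik; rw [Ah_diag h hb]
  · rw [Ah_apply, if_neg hik, sub_zero]; exact Int.natCast_nonneg _

lemma Ah_row {M : Des} (h : IsDes M) (i : Fin 14) : ∑ k, Ah M i k = 5 := by
  simp only [Ah_apply, Finset.sum_sub_distrib]
  rw [← Nat.cast_sum, Finset.sum_comm]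
  simp only [← Finset.mul_sum, h.1]
  rw [← Finset.sum_mul, h.2 i]
  simp

lemma Gam_two (M : Des) : Gam M 2 = ∑ i, ∑ k, Ah M i k ^ 2 := by
  simp only [Gam, pow_two, trace, diag, Matrix.mul_apply]
  refine Finset.sum_congr rfl fun i _ => Finset.sum_congr rfl fun k _ => ?_
  rw [Ah_symm M k i]

lemma Gam_three (M : Des) : Gam M 3 = ∑ i, ∑ k, ∑ l, Ah M i k * Ah M k l * Ah M l i := by
  simp only [Gam, pow_three', trace, diag, Matrix.mul_apply, Finset.sum_mul]
  refine Finset.sum_congr rfl fun i _ => ?_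
  rw [Finset.sum_comm]

lemma Gam_two_sub {M : Des} (h : IsDes M) :
    Gam M 2 - 70 = ∑ i, ∑ k, Ah M i k * (Ah M i k - 1) := by
  have : ∑ i, ∑ k, Ah M i k = 70 := by simp [Ah_row h]
  rw [Gam_two, ← this, ← Finset.sum_sub_distrib]
  refine Finset.sum_congr rfl fun i _ => ?_
  rw [← Finset.sum_sub_distrib]
  exact Finset.sum_congr rfl fun k _ => by ring

lemma int_mul_pred (x : ℤ) : 0 ≤ x * (x - 1) := by
  rcases le_or_gt x 0 with h | h
  · exact mul_nonneg_of_nonpos_of_nonpos h (by omega)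
  · exact mul_nonneg h.le (by omega)

lemma Gam_two_ge {M : Des} (h : IsDes M) : 70 ≤ Gam M 2 := by
  have := Gam_two_sub h
  have h2 : 0 ≤ ∑ i, ∑ k, Ah M i k * (Ah M i k - 1) :=
    Finset.sum_nonneg fun i _ => Finset.sum_nonneg fun k _ => int_mul_pred _
  omega

lemma Gam_three_ge {M : Des} (h : IsDes M) (hb : ∀ i j, M i j ≤ 1) : 0 ≤ Gam M 3 := by
  rw [Gam_three]
  exact Finset.sum_nonneg fun i _ => Finset.sum_nonneg fun k _ => Finset.sum_nonneg fun l _ =>
    mul_nonneg (mul_nonneg (Ah_nonneg h hb _ _) (Ah_nonneg h hb _ _)) (Ah_nonneg h hb _ _)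

lemma trace_cast (S h : ℕ) :
    trace (((AM S).map (fun x : ℕ => (x : ℤ))) ^ h) = ((trace (AM S ^ h) : ℕ) : ℤ) := by
  have e : ((AM S).map (fun x : ℕ => (x : ℤ))) = (Nat.castRingHom ℤ).mapMatrix (AM S) := rfl
  rw [e, ← map_pow]
  simp [trace]

lemma classify {M : Des} (h : IsDes M) (hb : ∀ i j, M i j ≤ 1) (h2 : Gam M 2 ≤ 70)
    (h3 : Gam M 3 ≤ 0) : ∃ T, leaf T = true ∧ ∀ n ≤ 30, Gam M n = gam T n := by
  have h01 : ∀ i k, Ah M i k = 0 ∨ Ah M i k = 1 := by
    intro i k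
    have e := Gam_two_sub h
    have e0 : ∑ i, ∑ k, Ah M i k * (Ah M i k - 1) = 0 := by
      have := Gam_two_ge h
      omega
    have e1 := (Finset.sum_eq_zero_iff_of_nonneg
      (fun i _ => Finset.sum_nonneg fun k _ => int_mul_pred _)).1 e0 i (Finset.mem_univ _)
    have e2 := (Finset.sum_eq_zero_iff_of_nonneg
      (fun k _ => int_mul_pred _)).1 e1 k (Finset.mem_univ _)
    rcases mul_eq_zero.1 e2 with e3 | e3
    · exact Or.inl e3
    · exact Or.inr (by omega)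
  have htri : ∀ i k l, Ah M i k * Ah M k l * Ah M l i = 0 := by
    intro i k l
    have nn : ∀ i k l, 0 ≤ Ah M i k * Ah M k l * Ah M l i := fun i k l =>
      mul_nonneg (mul_nonneg (Ah_nonneg h hb _ _) (Ah_nonneg h hb _ _)) (Ah_nonneg h hb _ _)
    have e0 : ∑ i, ∑ k, ∑ l, Ah M i k * Ah M k l * Ah M l i = 0 := by
      have := Gam_three_ge h hb
      rw [← Gam_three]; omega
    have e1 := (Finset.sum_eq_zero_iff_of_nonneg
      (fun i _ => Finset.sum_nonneg fun k _ => Finset.sum_nonneg fun l _ => nn _ _ _)).1 e0 i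
      (Finset.mem_univ _)
    have e2 := (Finset.sum_eq_zero_iff_of_nonneg
      (fun k _ => Finset.sum_nonneg fun l _ => nn _ _ _)).1 e1 k (Finset.mem_univ _)
    exact (Finset.sum_eq_zero_iff_of_nonneg (fun l _ => nn _ _ _)).1 e2 l (Finset.mem_univ _)
  let b : Fin 14 → Fin 14 → Bool := fun i k => decide (Ah M i k = 1)
  have hb' : ∀ i k, Ah M i k = if b i k then 1 else 0 := by
    intro i k
    rcases h01 i k with e | e <;> simp [b, e]
  obtain ⟨τ, hτ⟩ := exists_lex b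
  have hg : Good (fun i k => b (τ i) (τ k)) := by
    refine ⟨fun k l => ?_, fun k => ?_, fun k => ?_, fun k l m e1 e2 e3 => ?_, hτ⟩
    · simp only [b, Ah_symm M (τ k)]
    · simp [b, Ah_diag h hb]
    · have e := Ah_row h (τ k)
      rw [← Equiv.sum_comp τ] at e
      simp only [hb'] at e
      exact_mod_cast e
    · have := htri (τ k) (τ l) (τ m)
      rw [Ah_symm M (τ m), hb', hb', hb'] at this
      simp [e1, e2, e3] at this
  obtain ⟨T, hT, hT'⟩ := go_sound hg ps0 (0, 1) isPs0 0 (inv_start hg) go_ps0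
  refine ⟨T, hT, fun n hn => ?_⟩
  rw [gam_eq T n hn, ← trace_cast]
  have e : (AM T).map (fun x : ℕ => (x : ℤ)) = reindexAlgEquiv ℤ ℤ τ.symm (Ah M) := by
    ext k l
    simp only [Matrix.map_apply, AM, hT', coe_reindexAlgEquiv, reindex_apply, Equiv.symm_symm,
      submatrix_apply, hb']
    split_ifs <;> simp
  rw [e, ← map_pow]
  simp only [Gam, trace, diag, coe_reindexAlgEquiv, reindex_apply, Equiv.symm_symm,
    submatrix_apply]
  exact (Equiv.sum_comp τ fun i => (Ah M ^ n) i i).symm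

lemma CM_herm (M : Des) : (CM M).IsHermitian := by
  ext i k
  simp only [CM, conjTranspose_apply, star_trivial, Matrix.sub_apply, Matrix.smul_apply,
    Matrix.mul_apply, Matrix.map_apply, transpose_apply, Matrix.one_apply, eq_comm (a := k),
    mul_comm (M k _ : ℝ)]

lemma power_sum (M : Des) (n : ℕ) :
    ∑ i, (5 - 2 * (CM_herm M).eigenvalues i) ^ n = (Gam M n : ℝ) := by
  rw [← spec]
  have e : (5 : ℝ) • (1 : Matrix (Fin 14) (Fin 14) ℝ) - (2 : ℝ) • CM M =
      (Int.castRingHom ℝ).mapMatrix (Ah M) := by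
    ext i k
    simp only [CM, RingHom.mapMatrix_apply, Matrix.map_apply, Ah_apply, Matrix.sub_apply,
      Matrix.smul_apply, Matrix.mul_apply, transpose_apply, Matrix.one_apply, smul_eq_mul]
    rw [eq_intCast, Int.cast_sub, Int.cast_natCast, Nat.cast_sum]
    simp only [Nat.cast_mul]
    generalize (∑ j, (M i j : ℝ) * (M k j : ℝ)) = z
    split_ifs <;> push_cast <;> ring
  rw [e, ← map_pow]
  simp only [trace, Gam, diag, RingHom.mapMatrix_apply, Matrix.map_apply, eq_intCast, Int.cast_sum]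

lemma evv_eq (M : Des) :
    evv M = (Multiset.map (CM_herm M).eigenvalues Finset.univ.val).erase 0 := by
  unfold evv
  rw [(CM_herm M).roots_charpoly_eq_eigenvalues]
  rfl

def MD (e : List (ℕ × ℕ)) : Des := fun i j =>
  if (i : ℕ) = (e.getD j (0, 0)).1 ∨ (i : ℕ) = (e.getD j (0, 0)).2 then 1 else 0

lemma MD_le (e : List (ℕ × ℕ)) (i : Fin 14) (j : Fin 35) : MD e i j ≤ 1 := by
  unfold MD; split_ifs <;> simp

lemma des1 : IsDes (MD e1) := by unfold IsDes; decide +kernel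

lemma des2 : IsDes (MD e2) := by unfold IsDes; decide +kernel

lemma conc1 : ∀ i k : Fin 14, ∑ j, MD e1 i j * MD e1 k j = AM T1 i k + if i = k then 5 else 0 := by
  decide +kernel

lemma conc2 : ∀ i k : Fin 14, ∑ j, MD e2 i j * MD e2 k j = AM T2 i k + if i = k then 5 else 0 := by
  decide +kernel

lemma Gam_MD (e : List (ℕ × ℕ)) (T : ℕ)
    (hc : ∀ i k : Fin 14, ∑ j, MD e i j * MD e k j = AM T i k + if i = k then 5 else 0)
    (n : ℕ) (hn : n ≤ 30) : Gam (MD e) n = gam T n := by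
  rw [gam_eq T n hn, ← trace_cast]
  have : Ah (MD e) = (AM T).map (fun x : ℕ => (x : ℤ)) := by
    ext i k
    rw [Ah_apply, hc]
    simp only [Matrix.map_apply]
    split_ifs <;> simp
  rw [Gam, this]

lemma diam1 : ∀ v : Fin 14, v = 0 ∨ (0 ≠ v ∧ 0 < AM T1 0 v) ∨
    ∃ u, (0 ≠ u ∧ 0 < AM T1 0 u) ∧ (u ≠ v ∧ 0 < AM T1 u v) := by decide +kernel

lemma inB1 : InBB (MD e1) := by
  refine ⟨des1, MD_le e1, ?_⟩
  have hadj : ∀ u v : Fin 14, (u ≠ v ∧ 0 < AM T1 u v) →
      (SimpleGraph.fromRel (fun i j : Fin 14 => 0 < (MD e1 * (MD e1).transpose) i j)).Adj u v := by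
    intro u v huv
    rw [SimpleGraph.fromRel_adj]
    refine ⟨huv.1, Or.inl ?_⟩
    simp only [Matrix.mul_apply, transpose_apply]
    rw [conc1]
    omega
  have hr : ∀ v : Fin 14,
      (SimpleGraph.fromRel (fun i j : Fin 14 => 0 < (MD e1 * (MD e1).transpose) i j)).Reachable 0 v := by
    intro v
    rcases diam1 v with rfl | h | ⟨u, h1, h2⟩
    · rfl
    · exact (hadj _ _ h).reachable
    · exact (hadj _ _ h1).reachable.trans (hadj _ _ h2).reachable
  exact ⟨fun u v => (hr u).symm.trans (hr v)⟩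

lemma exists_lexmin : ∃ D, InBB D ∧ ∀ D', InBB D' → ∀ t : ℕ, 2 ≤ t →
    (∀ h : ℕ, 2 ≤ h → h < t → Gam D' h = Gam D h) → Gam D t ≤ Gam D' t := by
  have hfin : {M : Des | InBB M}.Finite := by
    have : {M : Fin 14 → Fin 35 → ℕ | ∀ i, M i ∈ {f : Fin 35 → ℕ | ∀ j, f j ∈ Set.Iic 1}}.Finite :=
      Set.Finite.pi' fun _ => Set.Finite.pi' fun _ => Set.finite_Iic 1
    exact this.subset fun M hM => hM.2.1
  obtain ⟨D, hD, hmin⟩ := Set.exists_min_image {M : Des | InBB M}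
    (fun M => (toLex (fun h : ℕ => Gam M (h + 2)) : Lex (ℕ → ℤ))) hfin ⟨_, inB1⟩
  refine ⟨D, hD, fun D' hD' t ht heq => ?_⟩
  by_contra hlt
  refine absurd (hmin D' hD') (not_le.2 ⟨t - 2, fun j hj => ?_, ?_⟩)
  · exact heq (j + 2) (by omega) (by omega)
  · change Gam D' (t - 2 + 2) < Gam D (t - 2 + 2)
    rw [Nat.sub_add_cancel ht]
    exact not_le.1 hlt

theorem main : ∃ D, InBB D ∧ (∀ D', InBB D' → ∀ t : ℕ, 2 ≤ t →
    (∀ h : ℕ, 2 ≤ h → h < t → Gam D' h = Gam D h) → Gam D t ≤ Gam D' t) ∧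
    ∃ D', IsDes D' ∧ (0 : ℝ) ∉ evv D' ∧
      ((evv D').map (fun x => x⁻¹)).sum < ((evv D).map (fun x => x⁻¹)).sum := by
  obtain ⟨D, hD, hmin⟩ := exists_lexmin
  refine ⟨D, hD, hmin, MD e2, des2, ?_⟩
  have v1 : ∀ n ≤ 20, Gam (MD e1) n = (g1.getD n 0 : ℕ) := by
    intro n hn
    rw [Gam_MD e1 T1 conc1 n (by omega), ← allg_spec T1 g1 0 allg1 n (by simp [g1]; omega), zero_add]
  have v2 : ∀ n ≤ 16, Gam (MD e2) n = (g2.getD n 0 : ℕ) := by
    intro n hn
    rw [Gam_MD e2 T2 conc2 n (by omega), ← allg_spec T2 g2 0 allg2 n (by simp [g2]; omega), zero_add]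
  have w2 : Gam (MD e1) 2 = 70 := by rw [v1 2 (by norm_num)]; rfl
  have w3 : Gam (MD e1) 3 = 0 := by rw [v1 3 (by norm_num)]; rfl
  have w4 : Gam (MD e1) 4 = 1190 := by rw [v1 4 (by norm_num)]; rfl
  have w5 : Gam (MD e1) 5 = 960 := by rw [v1 5 (by norm_num)]; rfl
  have hm := hmin _ inB1
  have u2 : Gam D 2 = 70 := by
    have := hm 2 le_rfl (fun h h1 h2 => by omega)
    have := Gam_two_ge hD.1
    omega
  have u3 : Gam D 3 = 0 := by
    have := hm 3 (by norm_num) (fun h h1 h2 => by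
      obtain rfl : h = 2 := by omega
      omega)
    have := Gam_three_ge hD.1 hD.2.1
    omega
  have u4 : Gam D 4 ≤ 1190 := by
    have := hm 4 (by norm_num) (fun h h1 h2 => by
      obtain rfl | rfl : h = 2 ∨ h = 3 := by omega
      all_goals omega)
    omega
  have u5 : Gam D 4 = 1190 → Gam D 5 ≤ 960 := by
    intro h4
    have := hm 5 (by norm_num) (fun h h1 h2 => by
      obtain rfl | rfl | rfl : h = 2 ∨ h = 3 ∨ h = 4 := by omega
      all_goals omega)
    omega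
  obtain ⟨T, hT, hT'⟩ := classify hD.1 hD.2.1 u2.le u3.le
  have t4 := hT' 4 (by norm_num)
  have t5 := hT' 5 (by norm_num)
  have hall : allg T g1 0 = true := by
    simp only [leaf, Bool.or_eq_true, Bool.and_eq_true, Nat.blt_eq, Nat.beq_eq] at hT
    rcases hT with h | ⟨h1, h2⟩ | h
    · omega
    · have := u5 (by omega)
      omega
    · exact h
  have v0 : ∀ n ≤ 20, Gam D n = (g1.getD n 0 : ℕ) := by
    intro n hn
    rw [hT' n (by omega), ← allg_spec T g1 0 hall n (by simp [g1]; omega), zero_add]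
  have a1 := aval_one (CM_herm D).eigenvalues (fun n hn => by
    rw [power_sum, v0 n hn]; simp)
  have a2 := aval_two (CM_herm (MD e2)).eigenvalues (fun n hn => by
    rw [power_sum, v2 n hn]; simp)
  rw [evv_eq, evv_eq]
  refine ⟨a2.1, ?_⟩
  rw [a1.2, a2.2]
  norm_num

end Pool.Agent.H456Z.Pat
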