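import Pool.Agent.H456Z.PatDefs

set_option autoImplicit false

namespace Pool.Agent.H456Z.Pat

lemma row_eq (S k : ℕ) : row S k = (S >>> (16 * k)) % 2 ^ 14 := rfl

lemma row_lt (S k : ℕ) : row S k < 2 ^ 14 := by
  rw [row_eq]; exact Nat.mod_lt _ (by norm_num)

lemma row_testBit (S k l : ℕ) : (row S k).testBit l = (decide (l < 14) && S.testBit (16 * k + l)) := by
  rw [row_eq, Nat.testBit_mod_two_pow, Nat.testBit_shiftRight]

/-- naive bit count -/
def pcN : ℕ → ℕ → ℕ
  | 0, _ => 0
  | n + 1, x => x % 2 + pcN n (x / 2)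

lemma pcN_eq (n x : ℕ) : pcN n x = ∑ l : Fin n, if x.testBit l then 1 else 0 := by
  induction n generalizing x with
  | zero => simp [pcN]
  | succ n ih =>
    rw [pcN, ih, Fin.sum_univ_succ]
    congr 1
    · simp only [Fin.val_zero, Nat.testBit_zero]
      rcases Nat.mod_two_eq_zero_or_one x with h | h <;> simp [h]
    · refine Finset.sum_congr rfl fun l _ => ?_
      rw [Fin.val_succ, Nat.testBit_succ]

def chk : ℕ → ℕ → Bool
  | 0, b => Nat.beq (pc b) (pcN 14 b)
  | d + 1, b => chk d (2 * b) && chk d (2 * b + 1)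

lemma chk_spec (d b : ℕ) (h : chk d b = true) (y : ℕ) (hy : y < 2 ^ d) :
    pc (b * 2 ^ d + y) = pcN 14 (b * 2 ^ d + y) := by
  induction d generalizing b y with
  | zero =>
    have : y = 0 := by simpa using hy
    subst this
    simpa [chk] using h
  | succ d ih =>
    simp only [chk, Bool.and_eq_true] at h
    by_cases h1 : y < 2 ^ d
    · have := ih _ h.1 y h1
      have e : b * 2 ^ (d + 1) + y = 2 * b * 2 ^ d + y := by ring
      rw [e]; exact this
    · have := ih _ h.2 (y - 2 ^ d) (by rw [pow_succ] at hy; omega)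
      have e : b * 2 ^ (d + 1) + y = (2 * b + 1) * 2 ^ d + (y - 2 ^ d) := by
        have : 2 ^ d ≤ y := not_lt.1 h1
        zify [this]; ring
      rw [e]; exact this

lemma chk14 : chk 14 0 = true := by decide +kernel

lemma pc_row (S k : ℕ) : pc (row S k) = ∑ l : Fin 14, if (row S k).testBit l then 1 else 0 := by
  have := chk_spec 14 0 chk14 (row S k) (row_lt S k)
  simp only [zero_mul, zero_add] at this
  rw [this, pcN_eq]

/-- hypotheses on the graph -/
structure Good (a : Fin 14 → Fin 14 → Bool) : Prop where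
  symm : ∀ k l, a k l = a l k
  irr : ∀ k, a k k = false
  deg : ∀ k, (∑ l, if a k l then 1 else 0) = 5
  tri : ∀ k l m, a k l = true → a k m = true → a l m = true → False
  lex : ∀ σ : Equiv.Perm (Fin 14), ∀ i j, (∀ i' j', (i' < i ∨ (i' = i ∧ j' < j)) →
    a i' j' = a (σ i') (σ j')) → a (σ i) (σ j) = true → a i j = true

def Proc (i j k l : ℕ) : Prop := min k l < i ∨ (min k l = i ∧ max k l < j)

instance (i j k l : ℕ) : Decidable (Proc i j k l) := by unfold Proc; infer_instance

def Inv (a : Fin 14 → Fin 14 → Bool) (i j S : ℕ) : Prop :=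
  ∀ k l : Fin 14, (row S k).testBit l = (a k l && decide (Proc i j k l))

variable {a : Fin 14 → Fin 14 → Bool}

lemma deg_full (ha : Good a) {i j S : ℕ} (hI : Inv a i j S) (k l : Fin 14)
    (hp : ¬ Proc i j k l) (h5 : 5 ≤ pc (row S k)) : a k l = false := by
  by_contra hne
  have hne : a k l = true := by simpa using hne
  rw [pc_row] at h5
  have h1 := ha.deg k
  have h2 : (∑ m : Fin 14, if (row S k).testBit m then 1 else 0) < ∑ m, if a k m then 1 else 0 := by
    apply Finset.sum_lt_sum
    · intro m _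
      rw [hI k m]
      cases a k m <;> simp
      split_ifs <;> simp
    · refine ⟨l, Finset.mem_univ _, ?_⟩
      rw [hI k l]
      simp [hne, hp]
  omega

lemma deg_need (ha : Good a) {i j S : ℕ} (hI : Inv a i j S) (k l : Fin 14) (c : ℕ)
    (hc : (∑ m : Fin 14, if (m ≠ l ∧ m ≠ k ∧ ¬ Proc i j k m) then 1 else 0) ≤ c)
    (h5 : pc (row S k) + c < 5) : a k l = true := by
  by_contra hne
  have hne : a k l = false := by simpa using hne
  rw [pc_row] at h5
  have h1 := ha.deg k
  have h2 : (∑ m, if a k m then 1 else 0) ≤ (∑ m : Fin 14, if (row S k).testBit m then 1 else 0) +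
      ∑ m : Fin 14, if (m ≠ l ∧ m ≠ k ∧ ¬ Proc i j k m) then 1 else 0 := by
    rw [← Finset.sum_add_distrib]
    apply Finset.sum_le_sum
    intro m _
    rw [hI k m]
    by_cases hm : a k m = true
    · have h3 : m ≠ l := by rintro rfl; rw [hne] at hm; exact absurd hm (by simp)
      have h4 : m ≠ k := by rintro rfl; rw [ha.irr] at hm; exact absurd hm (by simp)
      by_cases hp : Proc i j k m <;> simp [hm, h3, h4, hp]
    · simp [hm]
  omega

lemma cnt1 : ∀ i j : Fin 14, i < j →
    (∑ m : Fin 14, if (m ≠ j ∧ m ≠ i ∧ ¬ Proc i j i m) then 1 else 0) ≤ 13 - (j : ℕ) := by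
  decide +kernel

lemma cnt2 : ∀ i j : Fin 14, i < j →
    (∑ m : Fin 14, if (m ≠ i ∧ m ≠ j ∧ ¬ Proc i j j m) then 1 else 0) ≤ 12 - (i : ℕ) := by
  decide +kernel

lemma prune0_sound (ha : Good a) (i j : Fin 14) (hij : i < j) {S : ℕ} (hI : Inv a i j S)
    (h : prune0 i j S = true) : a i j = true := by
  simp only [prune0, Bool.or_eq_true, Nat.blt_eq, Nat.add_eq, Nat.sub_eq] at h
  rcases h with h | h
  · exact deg_need ha hI i j _ (cnt1 i j hij) h
  · rw [ha.symm]; exact deg_need ha hI j i _ (cnt2 i j hij) h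

lemma col_sound (ha : Good a) (i j p : Fin 14) (hip : i < p) (hp : (p : ℕ) + 1 = j) {S : ℕ}
    (hI : Inv a i j S) (h : row S p = row S j) : a i j = false := by
  have hpj : p < j := by rw [Fin.lt_def]; omega
  have hip' : (i : ℕ) < p := hip
  have h1 : ∀ m : Fin 14, m < i → a m p = a m j := by
    intro m hm
    have hm' : (m : ℕ) < i := hm
    have e1 := hI p m
    have e2 := hI j m
    rw [h, e2] at e1
    have p1 : Proc i j p m := Or.inl (by omega)
    have p2 : Proc i j j m := Or.inl (by omega)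
    simp only [p1, p2, decide_true, Bool.and_true] at e1
    rw [ha.symm m p, ha.symm m j, e1]
  have h2 : a i p = false := by
    have e1 := hI p i
    have e2 := hI j i
    rw [h, e2] at e1
    have p1 : Proc i j p i := Or.inr (by omega)
    have p2 : ¬ Proc i j j i := by unfold Proc; omega
    simp only [p1, p2, decide_true, decide_false, Bool.and_true, Bool.and_false] at e1
    rw [ha.symm, ← e1]
  by_contra hne
  have hne : a i j = true := by simpa using hne
  have hfix : ∀ m : Fin 14, m < p → Equiv.swap p j m = m := fun m hm =>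
    Equiv.swap_apply_of_ne_of_ne hm.ne (hm.trans hpj).ne
  have := ha.lex (Equiv.swap p j) i p ?_ (by rw [hfix i hip, Equiv.swap_apply_left]; exact hne)
  · rw [h2] at this; exact absurd this (by simp)
  · rintro i' j' (h3 | ⟨rfl, h3⟩)
    · rw [hfix i' (h3.trans hip)]
      by_cases e1 : j' = p
      · subst e1; rw [Equiv.swap_apply_left]; exact h1 i' h3
      by_cases e2 : j' = j
      · subst e2; rw [Equiv.swap_apply_right]; exact (h1 i' h3).symm
      rw [Equiv.swap_apply_of_ne_of_ne e1 e2]
    · rw [hfix i' hip, hfix j' h3]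

lemma three_testBit (p l : ℕ) : (3 * 2 ^ p).testBit l = decide (l = p ∨ l = p + 1) := by
  rw [Nat.testBit_mul_two_pow]
  by_cases h : p ≤ l
  · obtain ⟨d, rfl⟩ := Nat.exists_eq_add_of_le h
    rw [Nat.add_sub_cancel_left]
    have : (3 : ℕ) = 2 ^ 2 - 1 := by norm_num
    rw [this, Nat.testBit_two_pow_sub_one]
    simp only [h, decide_true, Bool.true_and, decide_eq_decide]
    omega
  · simp only [h, decide_false, Bool.false_and]
    symm
    simp only [decide_eq_false_iff_not]
    omega

lemma row_sound (ha : Good a) (i j p : Fin 14) (hij : i < j) (hp : (p : ℕ) + 1 = i) {S : ℕ}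
    (hI : Inv a i j S)
    (h : (row S p % 2 ^ ((j : ℕ) + 1)) ||| (3 * 2 ^ (p : ℕ)) = row S i ||| (3 * 2 ^ (p : ℕ))) :
    a i j = false := by
  have hpi : p < i := by rw [Fin.lt_def]; omega
  have hij' : (i : ℕ) < j := hij
  have h0 : ∀ l : Fin 14, l ≤ j → l ≠ p → l ≠ i → a p l = (a i l && decide (Proc i j i l)) := by
    intro l hl h1 h2
    have hl' : (l : ℕ) ≤ j := hl
    have e := congrArg (fun x => Nat.testBit x l) h
    simp only [Nat.testBit_lor, Nat.testBit_mod_two_pow, three_testBit] at e
    have n1 : ¬ ((l : ℕ) = p ∨ (l : ℕ) = p + 1) := by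
      rintro (h3 | h3)
      · exact h1 (Fin.ext h3)
      · exact h2 (Fin.ext (by omega))
    have n2 : (l : ℕ) < j + 1 := by omega
    have p1 : Proc i j p l := Or.inl (by omega)
    simp only [n1, n2, decide_false, decide_true, Bool.or_false, Bool.true_and] at e
    rw [hI p l, hI i l] at e
    simpa [p1] using e
  have h1 : ∀ l : Fin 14, l < j → l ≠ p → l ≠ i → a p l = a i l := by
    intro l hl h1 h2
    have hl' : (l : ℕ) < j := hl
    have h2' : (l : ℕ) ≠ i := fun h => h2 (Fin.ext h)
    have p1 : Proc i j i l := by unfold Proc; omega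
    simpa [p1] using h0 l hl.le h1 h2
  have h2 : a p j = false := by
    have p1 : ¬ Proc i j i j := by unfold Proc; omega
    simpa [p1] using h0 j le_rfl (hpi.trans hij).ne' hij.ne'
  by_contra hne
  have hne : a i j = true := by simpa using hne
  have hfix : ∀ m : Fin 14, m < p → Equiv.swap p i m = m := fun m hm =>
    Equiv.swap_apply_of_ne_of_ne hm.ne (hm.trans hpi).ne
  have := ha.lex (Equiv.swap p i) p j ?_ (by
    rw [Equiv.swap_apply_left, Equiv.swap_apply_of_ne_of_ne (hpi.trans hij).ne' hij.ne']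
    exact hne)
  · rw [h2] at this; exact absurd this (by simp)
  · rintro i' j' (h3 | ⟨rfl, h3⟩)
    · rw [hfix i' h3]
      have e0 : a i' p = a i' i := by
        rw [ha.symm i' p, ha.symm i' i]
        exact h1 i' ((h3.trans hpi).trans hij) h3.ne (h3.trans hpi).ne
      by_cases e1 : j' = p
      · subst e1; rw [Equiv.swap_apply_left]; exact e0
      by_cases e2 : j' = i
      · subst e2; rw [Equiv.swap_apply_right]; exact e0.symm
      rw [Equiv.swap_apply_of_ne_of_ne e1 e2]
    · rw [Equiv.swap_apply_left]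
      by_cases e1 : j' = i'
      · subst e1; rw [Equiv.swap_apply_left, ha.irr, ha.irr]
      by_cases e2 : j' = i
      · subst e2; rw [Equiv.swap_apply_right, ha.symm]
      rw [Equiv.swap_apply_of_ne_of_ne e1 e2]
      exact h1 j' h3 e1 e2

lemma prune1_sound (ha : Good a) (i j : Fin 14) (hij : i < j) {S : ℕ} (hI : Inv a i j S)
    (h : prune1 i j S = true) : a i j = false := by
  have hij' : (i : ℕ) < j := hij
  have np : ¬ Proc i j i j := by unfold Proc; omega
  have np' : ¬ Proc i j j i := by unfold Proc; omega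
  simp only [prune1, Bool.or_eq_true, Nat.ble_eq, Bool.not_eq_true', Bool.and_eq_true,
    Nat.blt_eq, Nat.beq_eq] at h
  rcases h with h | h | h | h | h
  · exact deg_full ha hI i j np h
  · rw [ha.symm]; exact deg_full ha hI j i np' h
  · have h' : row S i &&& row S j ≠ 0 := by
      intro h0
      have : Nat.beq (Nat.land (row S i) (row S j)) 0 = true := by
        rw [Nat.beq_eq]; exact h0
      rw [this] at h; exact absurd h (by simp)
    obtain ⟨l, hl⟩ := Nat.exists_testBit_of_ne_zero h'
    rw [Nat.testBit_land, Bool.and_eq_true] at hl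
    have hl14 : l < 14 := by
      have := hl.1
      rw [row_testBit] at this
      simp only [Bool.and_eq_true, decide_eq_true_eq] at this
      exact this.1
    have e1 := hI i ⟨l, hl14⟩
    have e2 := hI j ⟨l, hl14⟩
    rw [hl.1] at e1
    rw [hl.2] at e2
    have e3 : a i ⟨l, hl14⟩ = true := by
      have := e1.symm; simp only [Bool.and_eq_true] at this; exact this.1
    have e4 : a j ⟨l, hl14⟩ = true := by
      have := e2.symm; simp only [Bool.and_eq_true] at this; exact this.1
    by_contra hne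
    exact ha.tri i j _ (by simpa using hne) e3 e4
  · obtain ⟨h1, h2⟩ := h
    have h1' : (i : ℕ) + 1 < j := h1
    refine col_sound ha i j ⟨j - 1, by omega⟩ (by rw [Fin.lt_def]; simp only; omega)
      (by simp only; omega) hI ?_
    simpa using h2
  · obtain ⟨h1, h2⟩ := h
    exact row_sound ha i j ⟨i - 1, by omega⟩ hij (by simp only; omega) hI h2

def nxt (x : ℕ × ℕ) : ℕ × ℕ := if x.2 = 13 then (x.1 + 1, x.1 + 2) else (x.1, x.2 + 1)

def IsPs : ℕ × ℕ → List (ℕ × ℕ) → Prop
  | x, [] => x = (13, 14)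
  | x, y :: ps => y = x ∧ x.1 < x.2 ∧ x.2 < 14 ∧ IsPs (nxt x) ps

instance : ∀ x ps, Decidable (IsPs x ps)
  | x, [] => by unfold IsPs; infer_instance
  | x, y :: ps => by
    unfold IsPs
    have := instDecidableIsPs (nxt x) ps
    infer_instance

lemma isPs0 : IsPs (0, 1) ps0 := by decide +kernel

lemma proc_nxt (i j k l : ℕ) (hij : i < j) (_hj : j < 14) (hk : k < 14) (hl : l < 14) (hkl : k ≠ l) :
    Proc (nxt (i, j)).1 (nxt (i, j)).2 k l ↔ (Proc i j k l ∨ (k = i ∧ l = j) ∨ (k = j ∧ l = i)) := by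
  unfold nxt Proc
  split_ifs with h <;> simp only at h ⊢ <;> omega

lemma inv0 (ha : Good a) (i j : Fin 14) (hij : i < j) {S : ℕ} (hI : Inv a i j S)
    (h : a i j = false) : Inv a (nxt (i, j)).1 (nxt (i, j)).2 S := by
  intro k l
  rw [hI k l]
  by_cases hkl : k = l
  · subst hkl; simp [ha.irr]
  have hkl' : (k : ℕ) ≠ l := fun h => hkl (Fin.ext h)
  have := proc_nxt i j k l hij j.2 k.2 l.2 hkl'
  by_cases hp : Proc i j k l
  · simp [this, hp]
  · by_cases e1 : (k : ℕ) = i ∧ (l : ℕ) = j
    · have e2 : a k l = false := by rw [Fin.ext e1.1, Fin.ext e1.2]; exact h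
      simp [e2]
    by_cases e2 : (k : ℕ) = j ∧ (l : ℕ) = i
    · have e3 : a k l = false := by rw [Fin.ext e2.1, Fin.ext e2.2, ha.symm]; exact h
      simp [e3]
    simp [this, hp, e1, e2]

lemma inv1 (ha : Good a) (i j : Fin 14) (hij : i < j) {S : ℕ} (hI : Inv a i j S)
    (h : a i j = true) : Inv a (nxt (i, j)).1 (nxt (i, j)).2 (upd i j S) := by
  intro k l
  have e0 : (row (upd i j S) k).testBit l = ((row S k).testBit l ||
      decide (((k : ℕ) = i ∧ (l : ℕ) = j) ∨ ((k : ℕ) = j ∧ (l : ℕ) = i))) := by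
    have : upd i j S = S ||| 2 ^ (16 * (i : ℕ) + j) ||| 2 ^ (16 * (j : ℕ) + i) := rfl
    rw [this, row_testBit, row_testBit, Nat.testBit_lor, Nat.testBit_lor, Nat.testBit_two_pow,
      Nat.testBit_two_pow]
    have hl := l.2
    have hi := i.2
    have hj := j.2
    simp only [hl, decide_true, Bool.true_and, Bool.or_assoc, ← Bool.decide_or]
    congr 1
    simp only [decide_eq_decide]
    omega
  rw [e0, hI k l]
  have hij' : (i : ℕ) < j := hij
  by_cases hkl : k = l
  · subst hkl
    have : ¬ (((k : ℕ) = i ∧ (k : ℕ) = j) ∨ ((k : ℕ) = j ∧ (k : ℕ) = i)) := by omega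
    simp only [ha.irr, this, decide_false, Bool.false_and, Bool.or_false]
  have hkl' : (k : ℕ) ≠ l := fun h => hkl (Fin.ext h)
  have := proc_nxt i j k l hij j.2 k.2 l.2 hkl'
  by_cases e1 : (k : ℕ) = i ∧ (l : ℕ) = j
  · have e2 : a k l = true := by rw [Fin.ext e1.1, Fin.ext e1.2]; exact h
    rw [e2, decide_eq_true (this.2 (Or.inr (Or.inl e1))), decide_eq_true (Or.inl e1)]
    simp
  by_cases e2 : (k : ℕ) = j ∧ (l : ℕ) = i
  · have e3 : a k l = true := by rw [Fin.ext e2.1, Fin.ext e2.2, ha.symm]; exact h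
    rw [e3, decide_eq_true (this.2 (Or.inr (Or.inr e2))), decide_eq_true (Or.inr e2)]
    simp
  simp only [this, e1, e2, or_false, decide_false, Bool.or_false]

lemma go_sound (ha : Good a) (ps : List (ℕ × ℕ)) (x : ℕ × ℕ) (hx : IsPs x ps) (S : ℕ)
    (hI : Inv a x.1 x.2 S) (h : go ps S = true) :
    ∃ T, leaf T = true ∧ ∀ k l : Fin 14, (row T k).testBit l = a k l := by
  induction ps generalizing x S with
  | nil =>
    have hx' : x = (13, 14) := hx
    subst hx'
    refine ⟨S, h, fun k l => ?_⟩
    rw [hI k l]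
    have : Proc 13 14 k l := by
      have := k.2
      have := l.2
      unfold Proc; omega
    simp [this]
  | cons y ps ih =>
    obtain ⟨rfl, h1, h2, h3⟩ := hx
    obtain ⟨i, j⟩ := y
    simp only at h1 h2 hI
    have hgo : ((prune1 i j S || go ps (upd i j S)) && (prune0 i j S || go ps S)) = true := h
    simp only [Bool.and_eq_true, Bool.or_eq_true] at hgo
    let i' : Fin 14 := ⟨i, by omega⟩
    let j' : Fin 14 := ⟨j, h2⟩
    have hij : i' < j' := h1
    cases hc : a i' j' with
    | true =>
      rcases hgo.1 with h4 | h4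
      · have := prune1_sound ha i' j' hij hI h4
        rw [hc] at this; exact absurd this (by simp)
      · exact ih _ h3 _ (inv1 ha i' j' hij hI hc) h4
    | false =>
      rcases hgo.2 with h4 | h4
      · have := prune0_sound ha i' j' hij hI h4
        rw [hc] at this; exact absurd this (by simp)
      · exact ih _ h3 _ (inv0 ha i' j' hij hI hc) h4

lemma inv_start (ha : Good a) : Inv a 0 1 0 := by
  intro k l
  have : (row 0 k).testBit l = false := by rw [row_testBit]; simp
  rw [this]
  by_cases hp : Proc 0 1 k l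
  · have : k = l := by
      apply Fin.ext
      unfold Proc at hp; omega
    subst this; simp [ha.irr]
  · simp [hp]

/-- every labelled structure has a lexicographically largest relabelling -/
lemma exists_lex (b : Fin 14 → Fin 14 → Bool) : ∃ τ : Equiv.Perm (Fin 14),
    ∀ σ : Equiv.Perm (Fin 14), ∀ i j, (∀ i' j', (i' < i ∨ (i' = i ∧ j' < j)) →
      b (τ i') (τ j') = b (τ (σ i')) (τ (σ j'))) → b (τ (σ i)) (τ (σ j)) = true →
      b (τ i) (τ j) = true := by
  let F : Equiv.Perm (Fin 14) → Lex ((Fin 14 ×ₗ Fin 14) → Bool) :=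
    fun τ => toLex (fun x => b (τ (ofLex x).1) (τ (ofLex x).2))
  obtain ⟨τ, -, hτ⟩ := Finset.exists_max_image Finset.univ F Finset.univ_nonempty
  refine ⟨τ, fun σ i j h1 h2 => ?_⟩
  by_contra hne
  have hne : b (τ i) (τ j) = false := by simpa using hne
  have hlt : F τ < F (σ.trans τ) := by
    refine ⟨toLex (i, j), fun y hy => ?_, ?_⟩
    · obtain ⟨y1, y2⟩ := y
      have := Prod.Lex.toLex_lt_toLex.1 hy
      exact h1 y1 y2 this
    · change b (τ i) (τ j) < b (τ (σ i)) (τ (σ j))
      rw [hne, h2]; exact Bool.false_lt_true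
  exact absurd (hτ _ (Finset.mem_univ _)) (not_le.2 hlt)

end Pool.Agent.H456Z.Pat
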