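import Pool.Agent.H456Z.PatWalk

set_option autoImplicit false

namespace Pool.Agent.H456Z.Pat

def g2 : List ℕ := [14, 0, 70, 0, 1190, 980, 24514, 42560, 535318, 1368612, 12134570, 39240740, 282966698, 1063513360, 6739988598, 27940596320, 163021957014]

lemma aval_one (μ : Fin 14 → ℝ) (hs : ∀ h ≤ 20, ∑ i, (5 - 2 * μ i) ^ h = ((g1.getD h 0 : ℕ) : ℝ)) :
    (0 : ℝ) ∉ (Multiset.map μ Finset.univ.val).erase 0 ∧
      (((Multiset.map μ Finset.univ.val).erase 0).map (fun x => x⁻¹)).sum = 2 * 8684352 / 3255840 := by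
  have s0 : ∑ i, (5 - 2 * μ i) ^ 0 = 14 := by
    rw [hs 0 (by norm_num)]; norm_num [g1]
  have s1 : ∑ i, (5 - 2 * μ i) ^ 1 = 0 := by
    rw [hs 1 (by norm_num)]; norm_num [g1]
  have s2 : ∑ i, (5 - 2 * μ i) ^ 2 = 70 := by
    rw [hs 2 (by norm_num)]; norm_num [g1]
  have s3 : ∑ i, (5 - 2 * μ i) ^ 3 = 0 := by
    rw [hs 3 (by norm_num)]; norm_num [g1]
  have s4 : ∑ i, (5 - 2 * μ i) ^ 4 = 1190 := by
    rw [hs 4 (by norm_num)]; norm_num [g1]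
  have s5 : ∑ i, (5 - 2 * μ i) ^ 5 = 960 := by
    rw [hs 5 (by norm_num)]; norm_num [g1]
  have s6 : ∑ i, (5 - 2 * μ i) ^ 6 = 24790 := by
    rw [hs 6 (by norm_num)]; norm_num [g1]
  have s7 : ∑ i, (5 - 2 * μ i) ^ 7 = 40320 := by
    rw [hs 7 (by norm_num)]; norm_num [g1]
  have s8 : ∑ i, (5 - 2 * μ i) ^ 8 = 550598 := by
    rw [hs 8 (by norm_num)]; norm_num [g1]
  have s9 : ∑ i, (5 - 2 * μ i) ^ 9 = 1276992 := by
    rw [hs 9 (by norm_num)]; norm_num [g1]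
  have s10 : ∑ i, (5 - 2 * μ i) ^ 10 = 12649270 := by
    rw [hs 10 (by norm_num)]; norm_num [g1]
  have s11 : ∑ i, (5 - 2 * μ i) ^ 11 = 36495360 := by
    rw [hs 11 (by norm_num)]; norm_num [g1]
  have s12 : ∑ i, (5 - 2 * μ i) ^ 12 = 297123110 := by
    rw [hs 12 (by norm_num)]; norm_num [g1]
  have s13 : ∑ i, (5 - 2 * μ i) ^ 13 = 992462016 := by
    rw [hs 13 (by norm_num)]; norm_num [g1]
  have s14 : ∑ i, (5 - 2 * μ i) ^ 14 = 7089455254 := by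
    rw [hs 14 (by norm_num)]; norm_num [g1]
  have s15 : ∑ i, (5 - 2 * μ i) ^ 15 = 26249754240 := by
    rw [hs 15 (by norm_num)]; norm_num [g1]
  have s16 : ∑ i, (5 - 2 * μ i) ^ 16 = 171095580038 := by
    rw [hs 16 (by norm_num)]; norm_num [g1]
  have s17 : ∑ i, (5 - 2 * μ i) ^ 17 = 682562584896 := by
    rw [hs 17 (by norm_num)]; norm_num [g1]
  have s18 : ∑ i, (5 - 2 * μ i) ^ 18 = 4164192785398 := by
    rw [hs 18 (by norm_num)]; norm_num [g1]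
  have s19 : ∑ i, (5 - 2 * μ i) ^ 19 = 17552288510208 := by
    rw [hs 19 (by norm_num)]; norm_num [g1]
  have s20 : ∑ i, (5 - 2 * μ i) ^ 20 = 101993990112230 := by
    rw [hs 20 (by norm_num)]; norm_num [g1]
  apply asum μ (fun x => (0) * x ^ 0 + (48) * x ^ 1 + (-96) * x ^ 2 + (-56) * x ^ 3 + (144) * x ^ 4 + (11) * x ^ 5 + (-54) * x ^ 6 + (-4) * x ^ 7 + (6) * x ^ 8 + (1) * x ^ 9)
    (fun x => (651168) * x ^ 0 + (130224) * x ^ 1 + (26064) * x ^ 2 + (5224) * x ^ 3 + (1016) * x ^ 4 + (201) * x ^ 5 + (51) * x ^ 6 + (11) * x ^ 7 + (1) * x ^ 8) 3255840 8684352 (by norm_num) (by norm_num)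
  · have e : ∀ x : ℝ, ((x - 5) * ((0) * x ^ 0 + (48) * x ^ 1 + (-96) * x ^ 2 + (-56) * x ^ 3 + (144) * x ^ 4 + (11) * x ^ 5 + (-54) * x ^ 6 + (-4) * x ^ 7 + (6) * x ^ 8 + (1) * x ^ 9)) ^ 2 =
        (0) * x ^ 0 + (0) * x ^ 1 + (57600) * x ^ 2 + (-253440) * x ^ 3 + (190464) * x ^ 4 + (566784) * x ^ 5 + (-828320) * x ^ 6 + (-326464) * x ^ 7 + (947984) * x ^ 8 + (-54304) * x ^ 9 + (-477087) * x ^ 10 + (90850) * x ^ 11 + (127101) * x ^ 12 + (-26344) * x ^ 13 + (-19326) * x ^ 14 + (3052) * x ^ 15 + (1650) * x ^ 16 + (-136) * x ^ 17 + (-67) * x ^ 18 + (2) * x ^ 19 + (1) * x ^ 20 := by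
      intro x; ring
    simp only [e, Finset.sum_add_distrib, ← Finset.mul_sum, s0, s1, s2, s3, s4, s5, s6, s7, s8, s9, s10, s11, s12, s13, s14, s15, s16, s17, s18, s19, s20]
    norm_num
  · simp only [Finset.sum_add_distrib, ← Finset.mul_sum, s0, s1, s2, s3, s4, s5, s6, s7, s8, s9]
    norm_num
  · intro x; ring
  · simp only [Finset.sum_add_distrib, ← Finset.mul_sum, s0, s1, s2, s3, s4, s5, s6, s7, s8]
    norm_num

lemma aval_two (μ : Fin 14 → ℝ) (hs : ∀ h ≤ 16, ∑ i, (5 - 2 * μ i) ^ h = ((g2.getD h 0 : ℕ) : ℝ)) :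
    (0 : ℝ) ∉ (Multiset.map μ Finset.univ.val).erase 0 ∧
      (((Multiset.map μ Finset.univ.val).erase 0).map (fun x => x⁻¹)).sum = 2 * 263599 / 98826 := by
  have s0 : ∑ i, (5 - 2 * μ i) ^ 0 = 14 := by
    rw [hs 0 (by norm_num)]; norm_num [g2]
  have s1 : ∑ i, (5 - 2 * μ i) ^ 1 = 0 := by
    rw [hs 1 (by norm_num)]; norm_num [g2]
  have s2 : ∑ i, (5 - 2 * μ i) ^ 2 = 70 := by
    rw [hs 2 (by norm_num)]; norm_num [g2]
  have s3 : ∑ i, (5 - 2 * μ i) ^ 3 = 0 := by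
    rw [hs 3 (by norm_num)]; norm_num [g2]
  have s4 : ∑ i, (5 - 2 * μ i) ^ 4 = 1190 := by
    rw [hs 4 (by norm_num)]; norm_num [g2]
  have s5 : ∑ i, (5 - 2 * μ i) ^ 5 = 980 := by
    rw [hs 5 (by norm_num)]; norm_num [g2]
  have s6 : ∑ i, (5 - 2 * μ i) ^ 6 = 24514 := by
    rw [hs 6 (by norm_num)]; norm_num [g2]
  have s7 : ∑ i, (5 - 2 * μ i) ^ 7 = 42560 := by
    rw [hs 7 (by norm_num)]; norm_num [g2]
  have s8 : ∑ i, (5 - 2 * μ i) ^ 8 = 535318 := by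
    rw [hs 8 (by norm_num)]; norm_num [g2]
  have s9 : ∑ i, (5 - 2 * μ i) ^ 9 = 1368612 := by
    rw [hs 9 (by norm_num)]; norm_num [g2]
  have s10 : ∑ i, (5 - 2 * μ i) ^ 10 = 12134570 := by
    rw [hs 10 (by norm_num)]; norm_num [g2]
  have s11 : ∑ i, (5 - 2 * μ i) ^ 11 = 39240740 := by
    rw [hs 11 (by norm_num)]; norm_num [g2]
  have s12 : ∑ i, (5 - 2 * μ i) ^ 12 = 282966698 := by
    rw [hs 12 (by norm_num)]; norm_num [g2]
  have s13 : ∑ i, (5 - 2 * μ i) ^ 13 = 1063513360 := by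
    rw [hs 13 (by norm_num)]; norm_num [g2]
  have s14 : ∑ i, (5 - 2 * μ i) ^ 14 = 6739988598 := by
    rw [hs 14 (by norm_num)]; norm_num [g2]
  have s15 : ∑ i, (5 - 2 * μ i) ^ 15 = 27940596320 := by
    rw [hs 15 (by norm_num)]; norm_num [g2]
  have s16 : ∑ i, (5 - 2 * μ i) ^ 16 = 163021957014 := by
    rw [hs 16 (by norm_num)]; norm_num [g2]
  apply asum μ (fun x => (1) * x ^ 0 + (-5) * x ^ 1 + (4) * x ^ 2 + (10) * x ^ 3 + (-9) * x ^ 4 + (-7) * x ^ 5 + (3) * x ^ 6 + (1) * x ^ 7)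
    (fun x => (19765) * x ^ 0 + (3954) * x ^ 1 + (790) * x ^ 2 + (156) * x ^ 3 + (33) * x ^ 4 + (8) * x ^ 5 + (1) * x ^ 6) 98826 263599 (by norm_num) (by norm_num)
  · have e : ∀ x : ℝ, ((x - 5) * ((1) * x ^ 0 + (-5) * x ^ 1 + (4) * x ^ 2 + (10) * x ^ 3 + (-9) * x ^ 4 + (-7) * x ^ 5 + (3) * x ^ 6 + (1) * x ^ 7)) ^ 2 =
        (25) * x ^ 0 + (-260) * x ^ 1 + (926) * x ^ 2 + (-840) * x ^ 3 + (-2317) * x ^ 4 + (4900) * x ^ 5 + (938) * x ^ 6 + (-7484) * x ^ 7 + (1619) * x ^ 8 + (5036) * x ^ 9 + (-1610) * x ^ 10 + (-1456) * x ^ 11 + (490) * x ^ 12 + (140) * x ^ 13 + (-40) * x ^ 14 + (-4) * x ^ 15 + (1) * x ^ 16 := by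
      intro x; ring
    simp only [e, Finset.sum_add_distrib, ← Finset.mul_sum, s0, s1, s2, s3, s4, s5, s6, s7, s8, s9, s10, s11, s12, s13, s14, s15, s16]
    norm_num
  · simp only [Finset.sum_add_distrib, ← Finset.mul_sum, s0, s1, s2, s3, s4, s5, s6, s7]
    norm_num
  · intro x; ring
  · simp only [Finset.sum_add_distrib, ← Finset.mul_sum, s0, s1, s2, s3, s4, s5, s6]
    norm_num

def e1 : List (ℕ × ℕ) := [(0, 1), (0, 2), (0, 3), (0, 4), (0, 5), (1, 6), (1, 7), (1, 8), (1, 9), (2, 6), (2, 7), (2, 8), (2, 9), (3, 6), (3, 7), (3, 10), (3, 11), (4, 6), (4, 8), (4, 10), (4, 11), (5, 6), (5, 9), (5, 12), (5, 13), (7, 12), (7, 13), (8, 12), (8, 13), (9, 10), (9, 11), (10, 12), (10, 13), (11, 12), (11, 13)]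

def e2 : List (ℕ × ℕ) := [(0, 1), (0, 2), (0, 3), (0, 4), (0, 5), (1, 6), (1, 7), (1, 8), (1, 9), (2, 6), (2, 7), (2, 8), (2, 10), (3, 6), (3, 7), (3, 9), (3, 11), (4, 6), (4, 8), (4, 10), (4, 12), (5, 7), (5, 9), (5, 11), (5, 13), (6, 13), (7, 12), (8, 11), (8, 13), (9, 10), (9, 12), (10, 11), (10, 13), (11, 12), (12, 13)]

def T1 : ℕ := 1434901869743258615872003944403998650604728340732124257849119408190

def T2 : ℕ := 2251118630234684122935461242254517684675327503312416568599780589630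

lemma allg1 : allg T1 g1 0 = true := by decide +kernel

lemma allg2 : allg T2 g2 0 = true := by decide +kernel

end Pool.Agent.H456Z.Pat
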