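import Pool.Agent.H456Z.PatSound

set_option autoImplicit false

namespace Pool.Agent.H456Z.Pat

open Matrix

lemma dotb_cons (x : ℕ) (P : List ℕ) (r : ℕ) :
    dotb (x :: P) r = (bif Nat.beq (r % 2) 1 then x else 0) + dotb P (r / 2) := rfl

lemma dotb_ofFn (n : ℕ) (f : Fin n → ℕ) (r : ℕ) :
    dotb (List.ofFn f) r = ∑ l : Fin n, if r.testBit l then f l else 0 := by
  induction n generalizing r with
  | zero => simp [dotb]
  | succ n ih =>
    rw [List.ofFn_succ, dotb_cons, ih, Fin.sum_univ_succ]
    congr 1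
    · simp only [Fin.val_zero, Nat.testBit_zero]
      rcases Nat.mod_two_eq_zero_or_one r with h | h
      · rw [h]; rfl
      · rw [h]; rfl
    · refine Finset.sum_congr rfl fun l _ => ?_
      rw [Fin.val_succ, Nat.testBit_succ]

/-- adjacency matrix of a bit pattern -/
def AM (S : ℕ) : Matrix (Fin 14) (Fin 14) ℕ := fun k l => if (row S k).testBit l then 1 else 0

lemma step_eq (S : ℕ) (P : List ℕ) : step S P = List.ofFn fun k : Fin 14 => dotb P (row S k) := rfl

lemma P0_eq : P0 = List.ofFn fun k : Fin 14 => BB ^ (k : ℕ) := rfl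

lemma pw_eq (S h : ℕ) :
    pw S h = List.ofFn fun k : Fin 14 => ∑ l : Fin 14, (AM S ^ h) k l * BB ^ (l : ℕ) := by
  induction h with
  | zero =>
    have : pw S 0 = P0 := rfl
    rw [this, P0_eq]
    refine congrArg List.ofFn (funext fun k => ?_)
    simp [Matrix.one_apply]
  | succ h ih =>
    have : pw S (h + 1) = step S (pw S h) := rfl
    rw [this, step_eq, ih]
    refine congrArg List.ofFn (funext fun k => ?_)
    rw [dotb_ofFn, pow_succ']
    simp only [Matrix.mul_apply, Finset.sum_mul]
    rw [Finset.sum_comm]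
    refine Finset.sum_congr rfl fun m _ => ?_
    simp only [AM]
    split_ifs <;> simp

lemma AM_pow_le (S h : ℕ) (k l : Fin 14) : (AM S ^ h) k l ≤ 14 ^ h := by
  induction h generalizing k l with
  | zero => simp only [pow_zero, Matrix.one_apply]; split_ifs <;> simp
  | succ h ih =>
    rw [pow_succ', Matrix.mul_apply]
    calc ∑ m, AM S k m * (AM S ^ h) m l ≤ ∑ _m : Fin 14, 14 ^ h := by
          apply Finset.sum_le_sum
          intro m _
          have : AM S k m ≤ 1 := by simp only [AM]; split_ifs <;> simp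
          calc AM S k m * (AM S ^ h) m l ≤ 1 * 14 ^ h := Nat.mul_le_mul this (ih m l)
            _ = 14 ^ h := one_mul _
      _ = 14 ^ (h + 1) := by simp [pow_succ']

lemma digit (B : ℕ) (hB : 0 < B) (n : ℕ) (f : Fin n → ℕ) (hf : ∀ l, f l < B) (k : Fin n) :
    (∑ l : Fin n, f l * B ^ (l : ℕ)) / B ^ (k : ℕ) % B = f k := by
  induction n with
  | zero => exact k.elim0
  | succ n ih =>
    have e : (∑ l : Fin (n + 1), f l * B ^ (l : ℕ)) =
        f 0 + B * ∑ l : Fin n, f l.succ * B ^ (l : ℕ) := by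
      rw [Fin.sum_univ_succ, Finset.mul_sum]
      simp only [Fin.val_zero, pow_zero, mul_one, Fin.val_succ]
      congr 1
      exact Finset.sum_congr rfl fun l _ => by ring
    rw [e]
    refine Fin.cases ?_ (fun k => ?_) k
    · simp [Nat.mod_eq_of_lt (hf 0)]
    · rw [Fin.val_succ, pow_succ', ← Nat.div_div_eq_div_mul, Nat.add_mul_div_left _ _ hB,
        Nat.div_eq_of_lt (hf 0), zero_add]
      exact ih (fun l => f l.succ) (fun l => hf _) k

lemma trb_cons (x : ℕ) (P : List ℕ) (k : ℕ) :
    trb (x :: P) k = x / BB ^ k % BB + trb P (k + 1) := rfl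

lemma trb_ofFn (n : ℕ) (f : Fin n → ℕ) (k : ℕ) :
    trb (List.ofFn f) k = ∑ l : Fin n, f l / BB ^ (k + l) % BB := by
  induction n generalizing k with
  | zero => simp [trb]
  | succ n ih =>
    rw [List.ofFn_succ, trb_cons, ih, Fin.sum_univ_succ]
    congr 1
    refine Finset.sum_congr rfl fun l _ => ?_
    rw [Fin.val_succ, show k + 1 + l = k + (l + 1) by ring]

lemma gam_eq (S h : ℕ) (hh : h ≤ 30) : gam S h = trace (AM S ^ h) := by
  unfold gam
  rw [pw_eq, trb_ofFn]
  simp only [zero_add, trace, diag]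
  refine Finset.sum_congr rfl fun k _ => ?_
  apply digit BB (by norm_num [BB]) 14 (fun l => (AM S ^ h) k l)
  intro l
  calc (AM S ^ h) k l ≤ 14 ^ h := AM_pow_le S h k l
    _ ≤ 14 ^ 30 := Nat.pow_le_pow_right (by norm_num) hh
    _ < BB := by norm_num [BB]

lemma allg_spec (S : ℕ) (g : List ℕ) (h0 : ℕ) (h : allg S g h0 = true) (i : ℕ) (hi : i < g.length) :
    gam S (h0 + i) = g.getD i 0 := by
  induction g generalizing h0 i with
  | nil => simp at hi
  | cons x g ih =>
    have h' : (Nat.beq (gam S h0) x && allg S g (h0 + 1)) = true := h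
    simp only [Bool.and_eq_true, Nat.beq_eq] at h'
    cases i with
    | zero => simpa using h'.1
    | succ i =>
      have := ih (h0 + 1) h'.2 i (by simpa using hi)
      rw [show h0 + (i + 1) = h0 + 1 + i by ring, this]
      simp

/-- spectral description of the frozen quantities -/
lemma spec (C : Matrix (Fin 14) (Fin 14) ℝ) (hC : C.IsHermitian) (h : ℕ) :
    trace (((5 : ℝ) • (1 : Matrix (Fin 14) (Fin 14) ℝ) - (2 : ℝ) • C) ^ h) =
      ∑ i, (5 - 2 * hC.eigenvalues i) ^ h := by
  set U := hC.eigenvectorUnitary with hU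
  have hsp : C = Unitary.conjStarAlgAut ℝ _ U (diagonal hC.eigenvalues) := by
    conv_lhs => rw [hC.spectral_theorem]
    rfl
  have e : (5 : ℝ) • (1 : Matrix (Fin 14) (Fin 14) ℝ) - (2 : ℝ) • C =
      Unitary.conjStarAlgAut ℝ _ U (diagonal fun i => 5 - 2 * hC.eigenvalues i) := by
    have : (diagonal fun i => 5 - 2 * hC.eigenvalues i) =
        (5 : ℝ) • (1 : Matrix (Fin 14) (Fin 14) ℝ) - (2 : ℝ) • diagonal hC.eigenvalues := by
      ext i j
      by_cases hij : i = j
      · subst hij; simp
      · simp [hij]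
    rw [this, map_sub, map_smul, map_smul, map_one, ← hsp]
  rw [e, ← map_pow, Unitary.conjStarAlgAut_apply, trace_mul_comm, ← mul_assoc]
  simp [diagonal_pow]

/-- the sum of the reciprocal nonzero eigenvalues from power sums -/
lemma asum (μ : Fin 14 → ℝ) (m w : ℝ → ℝ) (c val : ℝ) (hc : c ≠ 0) (hm5 : m 5 = c)
    (h1 : ∑ i, ((5 - 2 * μ i - 5) * m (5 - 2 * μ i)) ^ 2 = 0)
    (h2 : ∑ i, m (5 - 2 * μ i) = c)
    (h3 : ∀ θ, c - m θ = (5 - θ) * w θ)
    (h4 : ∑ i, w (5 - 2 * μ i) - w 5 = val) :
    (0 : ℝ) ∉ (Multiset.map μ Finset.univ.val).erase 0 ∧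
      (((Multiset.map μ Finset.univ.val).erase 0).map (fun x => x⁻¹)).sum = 2 * val / c := by
  have hz : ∀ i, μ i ≠ 0 → m (5 - 2 * μ i) = 0 := by
    intro i hi
    have := (Finset.sum_eq_zero_iff_of_nonneg (fun i _ => sq_nonneg _)).1 h1 i (Finset.mem_univ _)
    have h5 := pow_eq_zero_iff (two_ne_zero) |>.1 this
    rcases mul_eq_zero.1 h5 with h6 | h6
    · exfalso; apply hi; linarith
    · exact h6
  have hcount : ((Finset.univ.filter fun i => μ i = 0).card : ℝ) = 1 := by
    have : ∑ i, m (5 - 2 * μ i) = ((Finset.univ.filter fun i => μ i = 0).card : ℝ) * c := by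
      rw [Finset.card_filter]
      push_cast
      rw [Finset.sum_mul]
      refine Finset.sum_congr rfl fun i _ => ?_
      by_cases hi : μ i = 0
      · simp [hi, hm5]
      · simp [hi, hz i hi]
    rw [h2] at this
    field_simp at this
    exact this.symm
  have hcount' : (Finset.univ.filter fun i => μ i = 0).card = 1 := by exact_mod_cast hcount
  have hc0 : Multiset.count 0 (Multiset.map μ Finset.univ.val) = 1 := by
    rw [Multiset.count_map]
    rw [← hcount']
    simp only [eq_comm (a := (0 : ℝ))]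
    rfl
  have hmem : (0 : ℝ) ∈ Multiset.map μ Finset.univ.val := by
    rw [← Multiset.one_le_count_iff_mem, hc0]
  constructor
  · rw [← Multiset.count_eq_zero, Multiset.count_erase_self, hc0]
  · have e1 : (((Multiset.map μ Finset.univ.val).erase 0).map (fun x => x⁻¹)).sum =
        ((Multiset.map μ Finset.univ.val).map (fun x => x⁻¹)).sum := by
      conv_rhs => rw [← Multiset.cons_erase hmem]
      simp
    rw [e1, Multiset.map_map]
    have e2 : (Multiset.map ((fun x => x⁻¹) ∘ μ) Finset.univ.val).sum = ∑ i, (μ i)⁻¹ := rfl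
    rw [e2, ← h4]
    have e3 : ∀ i, (μ i)⁻¹ = 2 * (w (5 - 2 * μ i) - if μ i = 0 then w 5 else 0) / c := by
      intro i
      by_cases hi : μ i = 0
      · simp [hi]
      · have := h3 (5 - 2 * μ i)
        rw [hz i hi] at this
        simp only [hi, if_false, sub_zero]
        generalize w (5 - 2 * μ i) = W at this ⊢
        field_simp
        linarith
    rw [Finset.sum_congr rfl fun i _ => e3 i, ← Finset.sum_div, ← Finset.mul_sum,
      Finset.sum_sub_distrib, ← Finset.sum_filter, Finset.sum_const, hcount']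
    simp

end Pool.Agent.H456Z.Pat
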